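import Pool.Agent.U136.DX.Stm5
import Pool.Agent.U397.DX.DSP

set_option autoImplicit false

/-! Project DX, package SEPD (helper319): derivatives as combinations of integer translates. -/

namespace Pool.Agent.U319.DX

open MvPolynomial Pool.Agent.N983.RT Pool.Agent.U136.DX
open Pool.Agent.U397.DX (Der_mem U_rep enlarge evL)

theorem t_SEPD : S_SEPD := by
  classical
  rintro P ⟨r, Q, κ, X₀, hκ, hQ, hsep⟩
  have h1 : ∀ R ∈ Submodule.span ℝ (Der P), (fun x : Wv => ev R x) ∈ Pool.Agent.U397.DX.U P := by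
    intro R hR
    have h2 : Submodule.span ℝ (Der P) ≤ (Pool.Agent.U397.DX.U P).comap evL := by
      rw [Submodule.span_le]
      rintro S ⟨l, hl, rfl⟩
      exact Der_mem P l hl
    exact h2 hR
  have h2 : ∀ j : Fin r, ∃ (N : ℕ) (c : Wv → ℝ), ∑ y ∈ box N, c y = 0 ∧
      ∀ x : Wv, ev (Q j) x = ∑ y ∈ box N, c y * ev P (x + y) := fun j => U_rep (h1 _ (hQ j))
  choose N c h3 h4 using h2
  have h5 : ∀ j : Fin r, ∃ c' : Wv → ℝ, ∑ y ∈ box (∑ i, N i), c' y = 0 ∧
      ∀ x : Wv, ev (Q j) x = ∑ y ∈ box (∑ i, N i), c' y * ev P (x + y) := fun j =>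
    enlarge (f := fun x => ev (Q j) x) (h3 j) (h4 j)
      (Finset.single_le_sum (f := N) (fun _ _ => Nat.zero_le _) (Finset.mem_univ j))
  choose c' h6 h7 using h5
  refine ⟨∑ i, N i, r, c', κ, X₀, hκ, h6, fun k k' hk hX => ?_⟩
  obtain ⟨j, hj⟩ := hsep k k' hk hX
  refine ⟨j, ?_⟩
  rw [← h7 j k, ← h7 j k']
  exact hj

end Pool.Agent.U319.DX
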